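import Pool.Agent.Helper96.QT.Def

/-!
Block QT9b.  The Gaussian mean of `FF a` at the points `log (n + 1/2)`, `n ≤ X`, tends to the value, uniformly in the
sequences `a` bounded by `1`.
-/

namespace Pool.Agent.QT

open Real Filter Topology MeasureTheory Set

private lemma meas16 (a : ℕ → ℝ) : Measurable (FF a) := by
  unfold FF
  refine Measurable.ite measurableSet_Ici ?_ measurable_const
  refine Measurable.mul (by fun_prop) ?_
  have h1 : Measurable (fun k : ℕ => ∑ n ∈ Finset.Icc 1 k, a n) := measurable_from_nat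
  exact h1.comp (Nat.measurable_floor.comp Real.measurable_exp)

private lemma abs_sum16 {a : ℕ → ℝ} (ha : ∀ n, |a n| ≤ 1) (k : ℕ) : |∑ n ∈ Finset.Icc 1 k, a n| ≤ k := by
  refine (Finset.abs_sum_le_sum_abs _ _).trans ?_
  refine (Finset.sum_le_card_nsmul _ _ 1 fun n _ => ha n).trans ?_
  simp

private lemma abs_FF16 {a : ℕ → ℝ} (ha : ∀ n, |a n| ≤ 1) (t : ℝ) : |FF a t| ≤ Real.exp (t / 2) := by
  unfold FF
  split_ifs with h
  · rw [abs_mul, abs_of_pos (Real.exp_pos _)]
    have h1 : |mS a (Real.exp t)| ≤ Real.exp t :=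
      (abs_sum16 ha _).trans (Nat.floor_le (Real.exp_pos t).le)
    calc Real.exp (-(t / 2)) * |mS a (Real.exp t)| ≤ Real.exp (-(t / 2)) * Real.exp t := by gcongr
      _ = Real.exp (t / 2) := by rw [← Real.exp_add]; congr 1; ring
  · simpa using (Real.exp_pos _).le

private lemma gauss16 {b : ℝ} (hb : 0 < b) (u : ℝ) : Integrable (fun t : ℝ => Real.exp (-b * (u - t) ^ 2)) ∧
    ∫ t : ℝ, Real.exp (-b * (u - t) ^ 2) = Real.sqrt (π / b) := by
  refine ⟨(integrable_exp_neg_mul_sq hb).comp_sub_left u, ?_⟩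
  rw [integral_sub_left_eq_self (fun t : ℝ => Real.exp (-b * t ^ 2)) volume u]
  exact integral_gaussian b

private lemma gk_eq16 {d : ℝ} (hd : 0 < d) (y : ℝ) :
    gk d y = (d * Real.sqrt (2 * π))⁻¹ * Real.exp (-(1 / (2 * d ^ 2)) * y ^ 2) := by
  unfold gk
  congr 2
  field_simp

private lemma sqrt16 {d : ℝ} (hd : 0 < d) : Real.sqrt (π / (1 / (2 * d ^ 2))) = d * Real.sqrt (2 * π) := by
  rw [show π / (1 / (2 * d ^ 2)) = d ^ 2 * (2 * π) by field_simp, Real.sqrt_mul (by positivity), Real.sqrt_sq hd.le]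

private lemma sqrt16' {d : ℝ} (hd : 0 < d) : Real.sqrt (π / (1 / (8 * d ^ 2))) = 2 * (d * Real.sqrt (2 * π)) := by
  rw [show π / (1 / (8 * d ^ 2)) = (2 * d) ^ 2 * (2 * π) by field_simp; ring, Real.sqrt_mul (by positivity),
    Real.sqrt_sq (by positivity)]
  ring

private lemma gk_int16 {d : ℝ} (hd : 0 < d) (u : ℝ) : Integrable (fun t : ℝ => gk d (u - t)) ∧
    ∫ t : ℝ, gk d (u - t) = 1 := by
  have hb : 0 < 1 / (2 * d ^ 2) := by positivity
  have h := gauss16 hb u
  simp only [gk_eq16 hd]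
  refine ⟨h.1.const_mul _, ?_⟩
  rw [integral_const_mul, h.2, sqrt16 hd]
  have : 0 < Real.sqrt (2 * π) := Real.sqrt_pos.2 (by positivity)
  field_simp

/-- the main pointwise inequality for the Gaussian -/
private lemma pt16 {d : ℝ} (hd : 0 < d) (hd1 : d ≤ 1) (y : ℝ) :
    |y| * Real.exp (|y| / 2) * Real.exp (-(1 / (2 * d ^ 2)) * y ^ 2) ≤
      4 * d * Real.exp (-(1 / (8 * d ^ 2)) * y ^ 2) := by
  have hy : y ^ 2 = |y| ^ 2 := (sq_abs y).symm
  rw [hy]
  set z := |y| with hz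
  have hz0 : 0 ≤ z := abs_nonneg y
  -- e^(z/2) ≤ 2 e^(z^2/(4d^2))
  have h1 : Real.exp (z / 2) ≤ 2 * Real.exp (1 / (4 * d ^ 2) * z ^ 2) := by
    have h2 : z / 2 ≤ 1 / 4 + 1 / (4 * d ^ 2) * z ^ 2 := by
      have h3 : 1 / 4 * z ^ 2 ≤ 1 / (4 * d ^ 2) * z ^ 2 := by
        gcongr
        nlinarith
      nlinarith [sq_nonneg (z - 1)]
    have h4 : Real.exp (1 / 4) ≤ 2 := by
      have := Real.exp_one_lt_d9
      have h5 : Real.exp (1 / 4) ^ 4 = Real.exp 1 := by
        rw [← Real.exp_nat_mul]; norm_num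
      have h6 : 0 < Real.exp (1 / 4) := Real.exp_pos _
      by_contra hc
      push Not at hc
      have h7 : (2:ℝ) ^ 4 ≤ Real.exp (1 / 4) ^ 4 := by gcongr
      rw [h5] at h7
      norm_num at h7
      linarith
    calc Real.exp (z / 2) ≤ Real.exp (1 / 4 + 1 / (4 * d ^ 2) * z ^ 2) := Real.exp_le_exp.2 h2
      _ = Real.exp (1 / 4) * Real.exp (1 / (4 * d ^ 2) * z ^ 2) := Real.exp_add _ _
      _ ≤ _ := by gcongr
  -- z ≤ 2 d e^(z^2/(8d^2))
  have h8 : z ≤ 2 * d * Real.exp (1 / (8 * d ^ 2) * z ^ 2) := by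
    have h9 : 1 / (8 * d ^ 2) * z ^ 2 + 1 ≤ Real.exp (1 / (8 * d ^ 2) * z ^ 2) := Real.add_one_le_exp _
    have h10 : z ≤ 2 * d * (1 / (8 * d ^ 2) * z ^ 2 + 1) := by
      rw [show 2 * d * (1 / (8 * d ^ 2) * z ^ 2 + 1) = (z ^ 2 + 8 * d ^ 2) / (4 * d) by field_simp; ring,
        le_div_iff₀ (by positivity)]
      nlinarith [sq_nonneg (z - 2 * d)]
    calc z ≤ 2 * d * (1 / (8 * d ^ 2) * z ^ 2 + 1) := h10
      _ ≤ _ := by gcongr
  calc z * Real.exp (z / 2) * Real.exp (-(1 / (2 * d ^ 2)) * z ^ 2)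
      ≤ (2 * d * Real.exp (1 / (8 * d ^ 2) * z ^ 2)) * (2 * Real.exp (1 / (4 * d ^ 2) * z ^ 2)) *
        Real.exp (-(1 / (2 * d ^ 2)) * z ^ 2) := by gcongr
    _ = 4 * d * (Real.exp (1 / (8 * d ^ 2) * z ^ 2) * Real.exp (1 / (4 * d ^ 2) * z ^ 2) *
        Real.exp (-(1 / (2 * d ^ 2)) * z ^ 2)) := by ring
    _ = _ := by
      rw [← Real.exp_add, ← Real.exp_add]
      congr 2
      field_simp
      ring

/-- the difference of the values near `log (n + 1/2)` -/
private lemma diff16 {a : ℕ → ℝ} (ha : ∀ n, |a n| ≤ 1) {X n : ℕ} (h1 : 1 ≤ n) (hn : n ≤ X) (t : ℝ) :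
    |FF a t - FF a (Real.log (n + 1 / 2))| ≤
      Real.sqrt (X + 1) * (4 * (X + 1)) * (|Real.log (n + 1 / 2) - t| * Real.exp (|Real.log (n + 1 / 2) - t| / 2)) := by
  have hn1 : (1:ℝ) ≤ n := by exact_mod_cast h1
  have hnX : (n:ℝ) ≤ X := by exact_mod_cast hn
  set u := Real.log (n + 1 / 2) with hu
  have hnu : Real.exp u = n + 1 / 2 := by rw [hu, Real.exp_log (by linarith)]
  have hu0 : 0 ≤ u := Real.log_nonneg (by linarith)
  have hsq : Real.exp (u / 2) ≤ Real.sqrt (X + 1) := by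
    apply Real.le_sqrt_of_sq_le
    rw [← Real.exp_nat_mul, show ((2:ℕ):ℝ) * (u / 2) = u by push_cast; ring, hnu]
    linarith
  set y := |u - t| with hy
  have hy0 : 0 ≤ y := abs_nonneg _
  have hK : 1 ≤ 4 * ((X:ℝ) + 1) := by nlinarith
  have hee : 1 ≤ Real.exp (y / 2) := Real.one_le_exp (by positivity)
  by_cases hc : 1 / (2 * (X:ℝ) + 2) ≤ y
  · -- far
    have h2 : |FF a t - FF a u| ≤ 2 * (Real.exp (u / 2) * Real.exp (y / 2)) := by
      have h3 := abs_FF16 ha t
      have h4 := abs_FF16 ha u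
      have h5 : Real.exp (t / 2) ≤ Real.exp (u / 2) * Real.exp (y / 2) := by
        rw [← Real.exp_add]
        apply Real.exp_le_exp.2
        have := neg_abs_le (u - t)
        rw [← hy] at this
        linarith
      have h6 : Real.exp (u / 2) ≤ Real.exp (u / 2) * Real.exp (y / 2) := le_mul_of_one_le_right (Real.exp_pos _).le hee
      have h7 := abs_sub (FF a t) (FF a u)
      linarith
    have h8 : 2 ≤ 4 * ((X:ℝ) + 1) * y := by
      rw [div_le_iff₀ (by positivity)] at hc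
      linarith
    calc |FF a t - FF a u| ≤ 2 * (Real.exp (u / 2) * Real.exp (y / 2)) := h2
      _ ≤ (4 * ((X:ℝ) + 1) * y) * (Real.sqrt (X + 1) * Real.exp (y / 2)) := by gcongr
      _ = _ := by ring
  · -- near
    push Not at hc
    have hy1 : y < 1 / 2 := hc.trans_le (by
      rw [div_le_div_iff₀ (by positivity) (by norm_num)]
      nlinarith)
    have hlo := (abs_lt.1 (hy ▸ hc : |u - t| < 1 / (2 * (X:ℝ) + 2)))
    have hfr : (1:ℝ) / (2 * X + 2) ≤ 1 / (2 * n + 2) := by gcongr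
    have hte : Real.exp t = (n + 1 / 2) * Real.exp (t - u) := by
      rw [← hnu, ← Real.exp_add]; congr 1; ring
    have hn2 : (0:ℝ) < 2 * n + 2 := by linarith
    have hup : Real.exp t < n + 1 := by
      have h2 : t - u < 1 / (2 * n + 2) := by linarith [hlo.1]
      have h3 : Real.exp (-(1 / (2 * (n:ℝ) + 2))) ≥ 1 - 1 / (2 * n + 2) := by
        have := Real.add_one_le_exp (-(1 / (2 * (n:ℝ) + 2)))
        linarith
      have h4 : Real.exp (t - u) < Real.exp (1 / (2 * n + 2)) := Real.exp_lt_exp.2 h2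
      have h5 : Real.exp (1 / (2 * (n:ℝ) + 2)) * Real.exp (-(1 / (2 * (n:ℝ) + 2))) = 1 := by
        rw [← Real.exp_add]; simp
      have h6 : Real.exp (1 / (2 * (n:ℝ) + 2)) * (1 - 1 / (2 * n + 2)) ≤ 1 := by
        calc _ ≤ Real.exp (1 / (2 * (n:ℝ) + 2)) * Real.exp (-(1 / (2 * (n:ℝ) + 2))) :=
              mul_le_mul_of_nonneg_left h3 (Real.exp_pos _).le
          _ = 1 := h5
      have h7 : 1 - 1 / (2 * (n:ℝ) + 2) = (2 * n + 1) / (2 * n + 2) := by field_simp; ring
      rw [h7, mul_div_assoc', div_le_one hn2] at h6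
      rw [hte]
      nlinarith [Real.exp_pos (t - u)]
    have hdn : (n:ℝ) < Real.exp t := by
      have h2 : -(1 / (2 * (n:ℝ) + 2)) < t - u := by linarith [hlo.2]
      have h3 := Real.add_one_le_exp (t - u)
      have h4 : 1 - 1 / (2 * (n:ℝ) + 2) < Real.exp (t - u) := by linarith
      have h7 : 1 - 1 / (2 * (n:ℝ) + 2) = (2 * n + 1) / (2 * n + 2) := by field_simp; ring
      rw [h7, div_lt_iff₀ hn2] at h4
      rw [hte]
      nlinarith [Real.exp_pos (t - u)]
    have ht0 : 0 ≤ t := by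
      by_contra hneg
      push Not at hneg
      have : Real.exp t < 1 := by rwa [Real.exp_lt_one_iff]
      linarith
    have hfl : ⌊Real.exp t⌋₊ = n := by
      rw [Nat.floor_eq_iff (Real.exp_pos t).le]
      exact ⟨hdn.le, hup⟩
    have hflu : ⌊Real.exp u⌋₊ = n := by
      rw [Nat.floor_eq_iff (Real.exp_pos u).le, hnu]
      constructor <;> linarith
    have hFt : FF a t = Real.exp (-(t / 2)) * ∑ k ∈ Finset.Icc 1 n, a k := by
      unfold FF mS
      rw [if_pos ht0, hfl]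
    have hFu : FF a u = Real.exp (-(u / 2)) * ∑ k ∈ Finset.Icc 1 n, a k := by
      unfold FF mS
      rw [if_pos hu0, hflu]
    rw [hFt, hFu, ← sub_mul, abs_mul]
    have hA : |∑ k ∈ Finset.Icc 1 n, a k| ≤ Real.exp u := by
      refine (abs_sum16 ha n).trans ?_
      rw [hnu]; linarith
    have hE : |Real.exp (-(t / 2)) - Real.exp (-(u / 2))| ≤ Real.exp (-(u / 2)) * (y * Real.exp (y / 2)) := by
      have h2 : Real.exp (-(t / 2)) = Real.exp (-(u / 2)) * Real.exp ((u - t) / 2) := by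
        rw [← Real.exp_add]; congr 1; ring
      rw [h2, show Real.exp (-(u / 2)) * Real.exp ((u - t) / 2) - Real.exp (-(u / 2)) =
        Real.exp (-(u / 2)) * (Real.exp ((u - t) / 2) - 1) by ring, abs_mul, abs_of_pos (Real.exp_pos _)]
      gcongr
      have h3 : |(u - t) / 2| ≤ 1 := by
        rw [abs_div, ← hy]
        norm_num
        linarith
      have h4 := Real.abs_exp_sub_one_le h3
      rw [abs_div, ← hy, abs_of_pos (by norm_num : (0:ℝ) < 2)] at h4
      nlinarith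
    calc |Real.exp (-(t / 2)) - Real.exp (-(u / 2))| * |∑ k ∈ Finset.Icc 1 n, a k|
        ≤ (Real.exp (-(u / 2)) * (y * Real.exp (y / 2))) * Real.exp u := by gcongr
      _ = (Real.exp (-(u / 2)) * Real.exp u) * (y * Real.exp (y / 2)) := by ring
      _ = Real.exp (u / 2) * (y * Real.exp (y / 2)) := by
        rw [← Real.exp_add]; congr 2; ring
      _ ≤ Real.sqrt (X + 1) * (y * Real.exp (y / 2)) := by gcongr
      _ ≤ Real.sqrt (X + 1) * (4 * ((X:ℝ) + 1)) * (y * Real.exp (y / 2)) := by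
        gcongr
        exact le_mul_of_one_le_right (Real.sqrt_nonneg _) hK

theorem b_eval (X : ℕ) {η : ℝ} (hη : 0 < η) : ∃ d : ℝ, 0 < d ∧ ∀ a : ℕ → ℝ, (∀ n, |a n| ≤ 1) → ∀ n : ℕ, 1 ≤ n → n ≤ X →
    |bb d (FF a) (Real.log (n + 1 / 2)) - FF a (Real.log (n + 1 / 2))| ≤ η := by
  set K : ℝ := Real.sqrt (X + 1) * (4 * (X + 1)) * 8 with hKdef
  have hKpos : 0 < K := by positivity
  refine ⟨min 1 (η / K), lt_min one_pos (by positivity), fun a ha n h1 hn => ?_⟩
  set d := min 1 (η / K) with hddef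
  have hd : 0 < d := lt_min one_pos (by positivity)
  have hd1 : d ≤ 1 := min_le_left _ _
  have hd2 : K * d ≤ η := by
    have : d ≤ η / K := min_le_right _ _
    rw [le_div_iff₀ hKpos] at this
    linarith
  set u := Real.log (n + 1 / 2) with hu
  set L : ℝ := Real.sqrt (X + 1) * (4 * (X + 1)) with hL
  have hL0 : 0 ≤ L := by positivity
  have hw : 0 < Real.sqrt (2 * π) := Real.sqrt_pos.2 (by positivity)
  have hb : 0 < 1 / (8 * d ^ 2) := by positivity
  have hg := gauss16 hb u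
  -- the pointwise bound
  have hpt : ∀ t : ℝ, ‖(FF a t - FF a u) * gk d (u - t)‖ ≤
      L * ((d * Real.sqrt (2 * π))⁻¹ * (4 * d)) * Real.exp (-(1 / (8 * d ^ 2)) * (u - t) ^ 2) := by
    intro t
    have h2 := diff16 ha h1 hn t
    rw [← hu, ← hL] at h2
    have h3 := pt16 hd hd1 (u - t)
    have h4 : 0 ≤ gk d (u - t) := by unfold gk; positivity
    rw [norm_mul, Real.norm_eq_abs, Real.norm_eq_abs, abs_of_nonneg h4]
    calc |FF a t - FF a u| * gk d (u - t)
        ≤ (L * (|u - t| * Real.exp (|u - t| / 2))) * gk d (u - t) := by gcongr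
      _ = L * (d * Real.sqrt (2 * π))⁻¹ *
          (|u - t| * Real.exp (|u - t| / 2) * Real.exp (-(1 / (2 * d ^ 2)) * (u - t) ^ 2)) := by
        rw [gk_eq16 hd]; ring
      _ ≤ L * (d * Real.sqrt (2 * π))⁻¹ * (4 * d * Real.exp (-(1 / (8 * d ^ 2)) * (u - t) ^ 2)) := by gcongr
      _ = _ := by ring
  have hgi : Integrable (fun t : ℝ => L * ((d * Real.sqrt (2 * π))⁻¹ * (4 * d)) *
      Real.exp (-(1 / (8 * d ^ 2)) * (u - t) ^ 2)) := hg.1.const_mul _
  have hmeas : AEStronglyMeasurable (fun t : ℝ => (FF a t - FF a u) * gk d (u - t)) volume := by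
    refine (Measurable.mul ((meas16 a).sub measurable_const) ?_).aestronglyMeasurable
    unfold gk
    fun_prop
  have hint : Integrable (fun t : ℝ => (FF a t - FF a u) * gk d (u - t)) :=
    hgi.mono' hmeas (ae_of_all _ hpt)
  have hk := gk_int16 hd u
  have hsplit : bb d (FF a) u - FF a u = ∫ t : ℝ, (FF a t - FF a u) * gk d (u - t) := by
    have h5 : Integrable (fun t : ℝ => FF a u * gk d (u - t)) := hk.1.const_mul _
    have h6 : Integrable (fun t : ℝ => FF a t * gk d (u - t)) := by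
      have := hint.add h5
      refine this.congr (ae_of_all _ fun t => ?_)
      simp only [Pi.add_apply]
      ring
    have h7 : (fun t : ℝ => (FF a t - FF a u) * gk d (u - t)) =
        fun t => FF a t * gk d (u - t) - FF a u * gk d (u - t) := by
      funext t; ring
    rw [h7, integral_sub h6 h5, integral_const_mul, hk.2, mul_one]
    rfl
  rw [hsplit, ← Real.norm_eq_abs]
  refine (norm_integral_le_of_norm_le hgi (ae_of_all _ hpt)).trans ?_
  rw [integral_const_mul, hg.2, sqrt16' hd]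
  calc L * ((d * Real.sqrt (2 * π))⁻¹ * (4 * d)) * (2 * (d * Real.sqrt (2 * π))) = K * d := by
        rw [hKdef]; field_simp; ring
    _ ≤ η := hd2

end Pool.Agent.QT
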